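import Pool.Agent.Helper87.MD.Goals

/-! The lattice lemma (packet LAT of project MD, MP_c307ca_nt). -/

set_option autoImplicit false

open Finset
open scoped Classical

namespace Pool.Agent.Helper99.MD

open Pool.Agent.Helper98.Lang Pool.Agent.Helper87.MD

/-- the elements -/
noncomputable def EA (α η : ℝ) (X : ℕ) : Finset ℕ :=
  (Icc 1 X).filter (fun x : ℕ => ∃ P : ℤ, |(x : ℝ) * α - P| ≤ η)

theorem nd_le_iff (t η : ℝ) : nd t ≤ η ↔ ∃ P : ℤ, |t - P| ≤ η := by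
  constructor
  · intro h
    exact ⟨round t, h⟩
  · rintro ⟨P, hP⟩
    exact (round_le t P).trans hP

theorem mem_EA {α η : ℝ} {X x : ℕ} :
    x ∈ EA α η X ↔ 1 ≤ x ∧ x ≤ X ∧ ∃ P : ℤ, |(x : ℝ) * α - P| ≤ η := by
  rw [EA, mem_filter, mem_Icc, and_assoc]

theorem EA_neg (α η : ℝ) (X : ℕ) : EA (-α) η X = EA α η X := by
  ext x
  rw [mem_EA, mem_EA]
  constructor
  · rintro ⟨h1, h2, P, hP⟩
    refine ⟨h1, h2, -P, ?_⟩
    rw [abs_le] at hP ⊢
    push_cast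
    constructor <;> linarith [hP.1, hP.2]
  · rintro ⟨h1, h2, P, hP⟩
    refine ⟨h1, h2, -P, ?_⟩
    rw [abs_le] at hP ⊢
    push_cast
    constructor <;> linarith [hP.1, hP.2]

/-- the starts of chains above `w` -/
noncomputable def S2 (α η ρ : ℝ) (X : ℕ) : Finset ℕ :=
  (Icc 1 X).filter (fun x : ℕ => ∃ P : ℤ, -η ≤ (x : ℝ) * α - P ∧ (x : ℝ) * α - P < -η + ρ)

/-- the starts of chains below `w` -/
noncomputable def S1 (α η : ℝ) (X w : ℕ) : Finset ℕ :=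
  (EA α η X).filter (fun x => x ≤ w)

section core

variable {α η ρ : ℝ} {X w : ℕ} {Q : ℤ}

theorem S1_card (hmin : ∀ u : ℕ, 1 ≤ u → u < w → ∀ P : ℤ, 2 * η < |(u : ℝ) * α - P|) :
    (S1 α η X w).card ≤ 1 := by
  have key : ∀ a ∈ S1 α η X w, ∀ b ∈ S1 α η X w, ¬ a < b := by
    intro a ha b hb hab
    rw [S1, mem_filter, mem_EA] at ha hb
    obtain ⟨⟨ha1, -, P, hP⟩, -⟩ := ha
    obtain ⟨⟨-, -, P', hP'⟩, hbw⟩ := hb
    have h := hmin (b - a) (by omega) (by omega) (P' - P)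
    rw [Nat.cast_sub hab.le] at h
    push_cast at h
    rw [abs_le] at hP hP'
    rcases lt_abs.1 h with h | h <;> nlinarith [hP.1, hP.2, hP'.1, hP'.2]
  rw [card_le_one]
  intro a ha b hb
  rcases lt_trichotomy a b with h | h | h
  · exact absurd h (key a ha b hb)
  · exact h
  · exact absurd h (key b hb a ha)

theorem S2_gap (hρ0 : 0 < ρ) (hρ : ρ ≤ 2 * η) (hQ : (w : ℝ) * α - Q = ρ)
    (hmin : ∀ u : ℕ, 1 ≤ u → u < w → ∀ P : ℤ, 2 * η < |(u : ℝ) * α - P|)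
    {a b : ℕ} (ha : a ∈ S2 α η ρ X) (hb : b ∈ S2 α η ρ X) (hab : a < b) :
    1 ≤ 2 * ρ * ((b : ℝ) - a) := by
  rw [S2, mem_filter] at ha hb
  obtain ⟨-, P, hP1, hP2⟩ := ha
  obtain ⟨-, P', hP1', hP2'⟩ := hb
  have hu : ((b - a : ℕ) : ℝ) = (b : ℝ) - a := Nat.cast_sub hab.le
  have hτ1 : ((b : ℝ) - a) * α - (P' - P) < ρ := by linarith
  have hτ2 : -ρ < ((b : ℝ) - a) * α - (P' - P) := by linarith
  have hwu : w ≤ b - a := by
    by_contra hlt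
    have h := hmin (b - a) (by omega) (by omega) (P' - P)
    rw [hu] at h
    push_cast at h
    rcases lt_abs.1 h with h | h <;> linarith
  have hwu' : (w : ℝ) ≤ (b : ℝ) - a := by rw [← hu]; exact_mod_cast hwu
  have hw0 : (0 : ℝ) ≤ w := Nat.cast_nonneg w
  -- the integer
  have hz : (((b - a : ℕ) : ℤ) * Q - w * (P' - P) : ℤ) < 0 := by
    by_contra hcon
    have h0 : (0 : ℝ) ≤ (((b - a : ℕ) : ℤ) * Q - w * (P' - P) : ℤ) := by
      exact_mod_cast not_lt.1 hcon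
    push_cast at h0
    rw [hu] at h0
    have h1 : ((b : ℝ) - a) * Q - w * (P' - P) =
        w * (((b : ℝ) - a) * α - (P' - P)) - ((b : ℝ) - a) * ρ := by
      rw [← hQ]; ring
    rw [h1] at h0
    have hba : (0 : ℝ) < (b : ℝ) - a := by
      have : (a : ℝ) < b := by exact_mod_cast hab
      linarith
    rcases eq_or_lt_of_le hw0 with hw | hw
    · rw [← hw] at h0
      nlinarith
    · nlinarith
  have hz1 : (((b - a : ℕ) : ℤ) * Q - w * (P' - P) : ℤ) ≤ -1 := by omega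
  have h0 : ((((b - a : ℕ) : ℤ) * Q - w * (P' - P) : ℤ) : ℝ) ≤ -1 := by exact_mod_cast hz1
  push_cast at h0
  rw [hu] at h0
  have h1 : ((b : ℝ) - a) * Q - w * (P' - P) =
      w * (((b : ℝ) - a) * α - (P' - P)) - ((b : ℝ) - a) * ρ := by
    rw [← hQ]; ring
  rw [h1] at h0
  nlinarith

theorem S2_card (hρ0 : 0 < ρ) (hρ : ρ ≤ 2 * η) (hQ : (w : ℝ) * α - Q = ρ)
    (hmin : ∀ u : ℕ, 1 ≤ u → u < w → ∀ P : ℤ, 2 * η < |(u : ℝ) * α - P|) :
    ((S2 α η ρ X).card : ℝ) ≤ 1 + 2 * ρ * X := by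
  have hmap : ∀ a ∈ S2 α η ρ X, ⌊2 * ρ * (a : ℝ)⌋₊ ∈ range (⌊2 * ρ * (X : ℝ)⌋₊ + 1) := by
    intro a ha
    rw [S2, mem_filter, mem_Icc] at ha
    rw [mem_range, Nat.lt_succ_iff]
    apply Nat.floor_le_floor
    have : (a : ℝ) ≤ X := by exact_mod_cast ha.1.2
    nlinarith
  have hlt : ∀ a ∈ S2 α η ρ X, ∀ b ∈ S2 α η ρ X, a < b →
      ⌊2 * ρ * (a : ℝ)⌋₊ < ⌊2 * ρ * (b : ℝ)⌋₊ := by
    intro a ha b hb hab
    have h := S2_gap hρ0 hρ hQ hmin ha hb hab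
    have h1 : 2 * ρ * (a : ℝ) + 1 ≤ 2 * ρ * b := by linarith
    have h2 : ⌊2 * ρ * (a : ℝ) + 1⌋₊ ≤ ⌊2 * ρ * (b : ℝ)⌋₊ := Nat.floor_le_floor h1
    rw [Nat.floor_add_one (by positivity)] at h2
    omega
  have hinj : Set.InjOn (fun a : ℕ => ⌊2 * ρ * (a : ℝ)⌋₊) (S2 α η ρ X : Set ℕ) := by
    intro a ha b hb hab
    rcases lt_trichotomy a b with h | h | h
    · exact absurd hab (hlt a ha b hb h).ne
    · exact h
    · exact absurd hab (hlt b hb a ha h).ne'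
  have hcard := card_le_card_of_injOn _ hmap hinj
  rw [card_range] at hcard
  have h1 : ((S2 α η ρ X).card : ℝ) ≤ (⌊2 * ρ * (X : ℝ)⌋₊ : ℝ) + 1 := by exact_mod_cast hcard
  have h2 : (⌊2 * ρ * (X : ℝ)⌋₊ : ℝ) ≤ 2 * ρ * X := Nat.floor_le (by positivity)
  linarith

theorem chain (hw : 1 ≤ w) (hρ0 : 0 < ρ) (hQ : (w : ℝ) * α - Q = ρ) :
    ∀ x : ℕ, ∀ P : ℤ, 1 ≤ x → x ≤ X → |(x : ℝ) * α - P| ≤ η →
      ∃ (a k : ℕ) (P' : ℤ), a ∈ S1 α η X w ∪ S2 α η ρ X ∧ x = a + k * w ∧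
        -η ≤ (a : ℝ) * α - P' ∧ (x : ℝ) * α - P = (a : ℝ) * α - P' + k * ρ := by
  intro x
  induction x using Nat.strong_induction_on with
  | _ x ih =>
    intro P hx1 hxX hP
    have hP' := abs_le.1 hP
    by_cases hxw : x ≤ w
    · refine ⟨x, 0, P, ?_, by simp, hP'.1, by simp⟩
      rw [mem_union]
      left
      rw [S1, mem_filter, mem_EA]
      exact ⟨⟨hx1, hxX, P, hP⟩, hxw⟩
    by_cases hs : (x : ℝ) * α - P < -η + ρ
    · refine ⟨x, 0, P, ?_, by simp, hP'.1, by simp⟩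
      rw [mem_union]
      right
      rw [S2, mem_filter, mem_Icc]
      exact ⟨⟨hx1, hxX⟩, P, hP'.1, hs⟩
    · have hcast : ((x - w : ℕ) : ℝ) = (x : ℝ) - w := Nat.cast_sub (by omega)
      obtain ⟨a, k, P', ha, hk, hP1, hP2⟩ := ih (x - w) (by omega) (P - Q) (by omega) (by omega) (by
        rw [hcast, abs_le]
        push_cast
        constructor <;> nlinarith [hP'.1, hP'.2])
      refine ⟨a, k + 1, P', ha, ?_, hP1, ?_⟩
      · rw [add_mul, one_mul]; omega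
      · rw [hcast] at hP2
        push_cast at hP2 ⊢
        nlinarith

theorem core (hw : 1 ≤ w) (hρ0 : 0 < ρ) (hρ : ρ ≤ 2 * η) (hQ : (w : ℝ) * α - Q = ρ)
    (hmin : ∀ u : ℕ, 1 ≤ u → u < w → ∀ P : ℤ, 2 * η < |(u : ℝ) * α - P|) (K : ℕ)
    (hK : ∀ k : ℕ, k * w ≤ X → (k : ℝ) * ρ ≤ 2 * η → k ≤ K) :
    ((EA α η X).card : ℝ) ≤ (2 + 2 * ρ * X) * (1 + K) := by
  have hsub : EA α η X ⊆ ((S1 α η X w ∪ S2 α η ρ X) ×ˢ range (K + 1)).image
      (fun y : ℕ × ℕ => y.1 + y.2 * w) := by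
    intro x hx
    rw [mem_EA] at hx
    obtain ⟨h1, h2, P, hP⟩ := hx
    obtain ⟨a, k, P', ha, hk, hP1, hP2⟩ := chain hw hρ0 hQ x P h1 h2 hP
    rw [mem_image]
    refine ⟨(a, k), ?_, hk.symm⟩
    rw [mem_product, mem_range, Nat.lt_succ_iff]
    refine ⟨ha, hK k (by omega) ?_⟩
    have hP' := abs_le.1 hP
    linarith [hP'.2]
  have h1 : (EA α η X).card ≤ (S1 α η X w ∪ S2 α η ρ X).card * (K + 1) := by
    refine (card_le_card hsub).trans (card_image_le.trans ?_)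
    rw [card_product, card_range]
  have h2 : (S1 α η X w ∪ S2 α η ρ X).card ≤ 1 + (S2 α η ρ X).card :=
    (card_union_le _ _).trans (Nat.add_le_add_right (S1_card hmin) _)
  have h3 := S2_card (X := X) hρ0 hρ hQ hmin
  have h4 : ((EA α η X).card : ℝ) ≤ (1 + (S2 α η ρ X).card) * (K + 1) := by
    exact_mod_cast h1.trans (Nat.mul_le_mul_right _ h2)
  have hK0 : (0 : ℝ) ≤ K := Nat.cast_nonneg K
  nlinarith

end core

theorem count {α η ρ : ℝ} {X w : ℕ} {Q : ℤ} (hw : 1 ≤ w) (hρ0 : 0 < ρ) (hρ : ρ ≤ 2 * η)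
    (hQ : |(w : ℝ) * α - Q| = ρ)
    (hmin : ∀ u : ℕ, 1 ≤ u → u < w → ∀ P : ℤ, 2 * η < |(u : ℝ) * α - P|) {T : ℝ}
    (hT : 2 * η * X ≤ T * (ρ * w)) (hT0 : 0 ≤ T) :
    ((EA α η X).card : ℝ) ≤ 2 + 8 * (η * X) + 2 * Real.sqrt T := by
  have hw0 : (0 : ℝ) < w := by exact_mod_cast hw
  have hη0 : 0 < η := by linarith
  set K : ℕ := ⌊min ((X : ℝ) / w) (2 * η / ρ)⌋₊ with hKdef
  have hm0 : 0 ≤ min ((X : ℝ) / w) (2 * η / ρ) := le_min (by positivity) (by positivity)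
  have hKle : (K : ℝ) ≤ min ((X : ℝ) / w) (2 * η / ρ) := Nat.floor_le hm0
  have hK1 : (K : ℝ) * w ≤ X := by
    have := hKle.trans (min_le_left _ _)
    rwa [le_div_iff₀ hw0] at this
  have hK2 : (K : ℝ) * ρ ≤ 2 * η := by
    have := hKle.trans (min_le_right _ _)
    rwa [le_div_iff₀ hρ0] at this
  have hK : ∀ k : ℕ, k * w ≤ X → (k : ℝ) * ρ ≤ 2 * η → k ≤ K := by
    intro k h1 h2
    apply Nat.le_floor
    apply le_min
    · rw [le_div_iff₀ hw0]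
      exact_mod_cast h1
    · rwa [le_div_iff₀ hρ0]
  have hcore : ((EA α η X).card : ℝ) ≤ (2 + 2 * ρ * X) * (1 + K) := by
    rcases abs_choice ((w : ℝ) * α - Q) with h | h
    · exact core hw hρ0 hρ (by rw [← hQ, h]) hmin K hK
    · rw [← EA_neg]
      refine core (Q := -Q) hw hρ0 hρ (by rw [← hQ, h]; push_cast; ring) ?_ K hK
      intro u h1 h2 P
      have := hmin u h1 h2 (-P)
      rw [← abs_neg] at this
      convert this using 2
      push_cast; ring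
  have hX0 : (0 : ℝ) ≤ X := Nat.cast_nonneg X
  have hK0 : (0 : ℝ) ≤ K := Nat.cast_nonneg K
  have hKs : (K : ℝ) ≤ Real.sqrt T := by
    apply Real.le_sqrt_of_sq_le
    have h1 : (K : ℝ) * w * ((K : ℝ) * ρ) ≤ X * (2 * η) :=
      mul_le_mul hK1 hK2 (by positivity) hX0
    have h2 : (K : ℝ) ^ 2 * (ρ * w) ≤ T * (ρ * w) := by nlinarith
    exact le_of_mul_le_mul_right h2 (by positivity)
  nlinarith [mul_le_mul_of_nonneg_left hK2 hX0, mul_le_mul_of_nonneg_right hρ hX0]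

theorem lat : LatStmt := by
  intro ξ hξ δ hδ
  obtain ⟨c, hc, hroth⟩ := hξ δ hδ
  refine ⟨8 + 2 / Real.sqrt c + 2 * Real.sqrt (2 / c), by positivity, ?_⟩
  intro s X η hs hX hη
  have hs0 : (0 : ℝ) < s := by exact_mod_cast hs
  have hX0 : (0 : ℝ) < X := by exact_mod_cast hX
  have hsX : (0 : ℝ) < (s : ℝ) * X := by positivity
  have hset : (Icc 1 X).filter (fun x : ℕ => nd ((x : ℝ) * (s * ξ)) ≤ η) = EA (s * ξ) η X := by
    ext x
    rw [mem_filter, mem_EA, mem_Icc, nd_le_iff, and_assoc]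
  rw [hset]
  set T : ℝ := η * ((s : ℝ) * X) ^ (1 + δ) with hTdef
  have hpow : 0 < ((s : ℝ) * X) ^ (1 + δ) := Real.rpow_pos_of_pos hsX _
  have hT0 : 0 < T := by positivity
  rw [← Real.sqrt_eq_rpow]
  have hsc : 0 < Real.sqrt c := Real.sqrt_pos.2 hc
  have hsT : 0 < Real.sqrt T := Real.sqrt_pos.2 hT0
  have hs2 : 0 ≤ Real.sqrt (2 / c) := Real.sqrt_nonneg _
  have hηX : 0 < η * X := by positivity
  -- trivial cases
  rcases Nat.eq_zero_or_pos (EA (s * ξ) η X).card with h0 | hpos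
  · rw [h0]
    have : 0 ≤ (8 + 2 / Real.sqrt c + 2 * Real.sqrt (2 / c)) * (η * X + Real.sqrt T) := by
      positivity
    exact_mod_cast this
  -- the Roth lower bound
  have hlow : ∀ u : ℕ, 1 ≤ u → ∀ P : ℤ,
      c * (((u : ℝ) * s)) ^ (-(1 + δ)) ≤ |(u : ℝ) * (s * ξ) - P| := by
    intro u hu P
    have h := hroth (u * s) (Nat.mul_pos hu hs)
    push_cast at h
    refine h.trans ?_
    have h2 : nd ((u : ℝ) * s * ξ) ≤ |(u : ℝ) * s * ξ - P| := round_le _ P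
    rwa [mul_assoc] at h2 ⊢
  obtain ⟨x, hx⟩ := card_pos.1 hpos
  rw [mem_EA] at hx
  obtain ⟨hx1, hxX, P, hP⟩ := hx
  have hcT : c ≤ T := by
    have h1 := (hlow x hx1 P).trans hP
    have hx0 : (0 : ℝ) < (x : ℝ) * s := by
      have : (0 : ℝ) < x := by exact_mod_cast hx1
      positivity
    have hle : (x : ℝ) * s ≤ s * X := by
      have : (x : ℝ) ≤ X := by exact_mod_cast hxX
      nlinarith
    have h2 : ((x : ℝ) * s) ^ (1 + δ) ≤ ((s : ℝ) * X) ^ (1 + δ) :=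
      Real.rpow_le_rpow hx0.le hle (by linarith)
    rw [Real.rpow_neg hx0.le, ← div_eq_mul_inv, div_le_iff₀ (Real.rpow_pos_of_pos hx0 _)] at h1
    calc c ≤ η * ((x : ℝ) * s) ^ (1 + δ) := h1
      _ ≤ η * ((s : ℝ) * X) ^ (1 + δ) := mul_le_mul_of_nonneg_left h2 hη.le
  -- the least `w`
  have hex : ∃ u : ℕ, 1 ≤ u ∧ ∃ P : ℤ, |(u : ℝ) * (s * ξ) - P| ≤ 2 * η :=
    ⟨x, hx1, P, hP.trans (by linarith)⟩
  obtain ⟨hw1, Q, hQ⟩ := Nat.find_spec hex
  have hmin : ∀ u : ℕ, 1 ≤ u → u < Nat.find hex → ∀ P : ℤ, 2 * η < |(u : ℝ) * (s * ξ) - P| := by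
    intro u h1 h2 P
    by_contra hcon
    exact Nat.find_min hex h2 ⟨h1, P, not_lt.1 hcon⟩
  have hwX : Nat.find hex ≤ X :=
    (Nat.find_min' hex ⟨hx1, P, hP.trans (by linarith)⟩).trans hxX
  generalize Nat.find hex = w at hw1 hQ hmin hwX
  have hw0 : (0 : ℝ) < w := by exact_mod_cast hw1
  have hws : (0 : ℝ) < (w : ℝ) * s := by positivity
  have hρlow := hlow w hw1 Q
  have hρ0 : 0 < |(w : ℝ) * (s * ξ) - Q| :=
    lt_of_lt_of_le (by have := Real.rpow_pos_of_pos hws (-(1 + δ)); positivity) hρlow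
  have hT2 : 2 * η * X ≤ (2 / c * T) * (|(w : ℝ) * (s * ξ) - Q| * w) := by
    have h1 : c ≤ |(w : ℝ) * (s * ξ) - Q| * ((w : ℝ) * s) ^ (1 + δ) := by
      rw [Real.rpow_neg hws.le, ← div_eq_mul_inv, div_le_iff₀ (Real.rpow_pos_of_pos hws _)] at hρlow
      exact hρlow
    have h2 : ((w : ℝ) * s) ^ (1 + δ) * X ≤ ((s : ℝ) * X) ^ (1 + δ) * w := by
      have hXw : (1 : ℝ) ≤ X / w := by
        rw [le_div_iff₀ hw0, one_mul]
        exact_mod_cast hwX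
      have h3 : (s : ℝ) * X = (w * s) * (X / w) := by field_simp
      rw [h3, Real.mul_rpow hws.le (by positivity)]
      have h4 : (X : ℝ) / w ≤ (X / w) ^ (1 + δ) := by
        conv_lhs => rw [← Real.rpow_one ((X : ℝ) / w)]
        exact Real.rpow_le_rpow_of_exponent_le hXw (by linarith)
      have h5 : (X : ℝ) = X / w * w := by field_simp
      have h6 : 0 < ((w : ℝ) * s) ^ (1 + δ) := Real.rpow_pos_of_pos hws _
      calc ((w : ℝ) * s) ^ (1 + δ) * X = ((w : ℝ) * s) ^ (1 + δ) * (X / w * w) := by rw [← h5]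
        _ ≤ ((w : ℝ) * s) ^ (1 + δ) * ((X / w) ^ (1 + δ) * w) := by gcongr
        _ = ((w : ℝ) * s) ^ (1 + δ) * (X / w) ^ (1 + δ) * w := by ring
    have h7 : c * X ≤ ((s : ℝ) * X) ^ (1 + δ) * (|(w : ℝ) * (s * ξ) - Q| * w) := by
      calc c * X ≤ (|(w : ℝ) * (s * ξ) - Q| * ((w : ℝ) * s) ^ (1 + δ)) * X := by gcongr
        _ = |(w : ℝ) * (s * ξ) - Q| * (((w : ℝ) * s) ^ (1 + δ) * X) := by ring
        _ ≤ |(w : ℝ) * (s * ξ) - Q| * (((s : ℝ) * X) ^ (1 + δ) * w) := by gcongr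
        _ = _ := by ring
    rw [hTdef]
    have h8 : 2 / c * (η * ((s : ℝ) * X) ^ (1 + δ)) * (|(w : ℝ) * (s * ξ) - Q| * w) =
        2 * η / c * (((s : ℝ) * X) ^ (1 + δ) * (|(w : ℝ) * (s * ξ) - Q| * w)) := by ring
    rw [h8]
    calc 2 * η * X = 2 * η / c * (c * X) := by field_simp
      _ ≤ _ := by gcongr
  have hfin := count hw1 hρ0 hQ rfl hmin hT2 (by positivity)
  rw [Real.sqrt_mul (by positivity)] at hfin
  have h9 : 2 ≤ 2 / Real.sqrt c * Real.sqrt T := by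
    rw [div_mul_eq_mul_div, le_div_iff₀ hsc]
    exact mul_le_mul_of_nonneg_left (Real.sqrt_le_sqrt hcT) (by norm_num)
  have h10 : 0 ≤ 2 / Real.sqrt c := by positivity
  nlinarith [mul_nonneg h10 hηX.le, mul_nonneg hs2 hηX.le]

end Pool.Agent.Helper99.MD
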